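import Pool.Agent.Helper79.GU.St1

/-!
# Project GU (MP_c2d095_lc), module AR2: the procedure for safe players
-/

set_option autoImplicit false

namespace Pool.Agent.Helper6.GU

open Pool.Agent.Helper19.SK Pool.Agent.Helper73.DC Pool.Agent.Helper79.GS Pool.Agent.Helper79.GT
open Pool.Agent.Helper79.GU Finset
open scoped Classical

private theorem b01_ne {p : Prop} : b01 p ≠ 0 ↔ p := by
  unfold b01; split_ifs <;> simp_all

private theorem b01_eq0 {p : Prop} : b01 p = 0 ↔ ¬ p := by
  unfold b01; split_ifs <;> simp_all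

private theorem b01_eq1 {p : Prop} : b01 p = 1 ↔ p := by
  unfold b01; split_ifs <;> simp_all

private theorem b01_mod (p : Prop) : b01 p % 2 = b01 p := by
  unfold b01; split_ifs <;> simp

private theorem b01_congr {p q : Prop} (h : p ↔ q) : b01 p = b01 q := by
  rw [propext h]

/-- the loop of kind 2 -/
private theorem loop_all (Q : ℕ → Prop) (s : ℕ → ℕ → ℕ) (M : ℕ)
    (hs : ∀ j < M, ∀ a, s j a = b01 (a = 1 ∧ Q j)) (m : ℕ) (hm : m ≤ M) :
    (Nat.rec 1 (fun j a => s j a) m : ℕ) = b01 (∀ j < m, Q j) := by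
  induction m with
  | zero =>
    change 1 = _
    rw [eq_comm, b01_eq1]
    intro j hj; omega
  | succ m ih =>
    change s m (Nat.rec 1 (fun j a => s j a) m : ℕ) = _
    rw [hs m (by omega), ih (by omega)]
    apply b01_congr
    rw [b01_eq1]
    constructor
    · rintro ⟨h1, h2⟩ j hj
      rcases Nat.lt_succ_iff_lt_or_eq.1 hj with h | h
      · exact h1 j h
      · rw [h]; exact h2
    · intro h
      exact ⟨fun j hj => h j (by omega), h m (by omega)⟩

/-- the loop of kind 3 -/
private theorem loop_ex (Q : ℕ → Prop) (s : ℕ → ℕ → ℕ) (M : ℕ) (hs0 : ∀ a, s 0 a = b01 (Q 0))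
    (hs : ∀ j < M, ∀ a, s (j + 1) a = b01 (a = 1 ∨ Q (j + 1))) (i m : ℕ) (hm : m ≤ M) :
    (Nat.rec i (fun j a => s j a) (m + 1) : ℕ) = b01 (Q 0 ∨ ∃ j < m, Q (j + 1)) := by
  induction m with
  | zero =>
    change s 0 _ = _
    rw [hs0]
    apply b01_congr
    constructor
    · intro h; exact Or.inl h
    · rintro (h | ⟨j, hj, _⟩)
      · exact h
      · omega
  | succ m ih =>
    change s (m + 1) (Nat.rec i (fun j a => s j a) (m + 1) : ℕ) = _
    rw [hs m (by omega), ih (by omega)]
    apply b01_congr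
    rw [b01_eq1]
    constructor
    · rintro ((h | ⟨j, hj, h⟩) | h)
      · exact Or.inl h
      · exact Or.inr ⟨j, by omega, h⟩
      · exact Or.inr ⟨m, by omega, h⟩
    · rintro (h | ⟨j, hj, h⟩)
      · exact Or.inl (Or.inl h)
      · rcases Nat.lt_succ_iff_lt_or_eq.1 hj with h' | h'
        · exact Or.inl (Or.inr ⟨j, h', h⟩)
        · rw [h'] at h; exact Or.inr h

theorem hAR2 (hFLE : Pool.Agent.Helper79.GU.StFLE) : Pool.Agent.Helper79.GU.StAR2 := by
  intro w T k u v c hT hok
  obtain ⟨hNb, hN3, hpw, hbig, hrk, hF⟩ := hFLE w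
  obtain ⟨h1, h3, hk, hu, hv, hc⟩ := hok
  obtain ⟨N, hN⟩ : ∃ N, N = NN 8 w := ⟨_, rfl⟩
  have hF0 : ∀ T k u v c, OkFE w T k u v c → fE N w (zE N w T k u v c) 0 = T := by
    intro T k u v c h; rw [hN]; exact (hF T k u v c h).1
  have hF1 : ∀ T k u v c, OkFE w T k u v c → fE N w (zE N w T k u v c) 1 = k := by
    intro T k u v c h; rw [hN]; exact (hF T k u v c h).2.1
  have hF2 : ∀ T k u v c, OkFE w T k u v c → fE N w (zE N w T k u v c) 2 = u := by
    intro T k u v c h; rw [hN]; exact (hF T k u v c h).2.2.1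
  have hF3 : ∀ T k u v c, OkFE w T k u v c → fE N w (zE N w T k u v c) 3 = v := by
    intro T k u v c h; rw [hN]; exact (hF T k u v c h).2.2.2.1
  have hF4 : ∀ T k u v c, OkFE w T k u v c → fE N w (zE N w T k u v c) 4 = c := by
    intro T k u v c h; rw [hN]; exact (hF T k u v c h).2.2.2.2.1
  have hpw3 : pw N 3 (nV w * nV w) = 3 ^ (nV w * nV w) := by rw [hN]; exact hpw _ le_rfl
  have hNb' : NbE N w = 3 ^ (nV w * nV w) := by rw [hN]; exact hNb
  have hok0 : OkFE w T k u v c := ⟨h1, h3, hk, hu, hv, hc⟩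
  have h3p : 0 < 3 ^ (nV w * nV w) := by positivity
  have hT23 : T = 2 ∨ T = 3 := by omega
  unfold ArgE
  rw [← hN]
  rcases hT23 with hT2 | hT3
  · subst hT2
    have hlen : lenE N w (zE N w 2 k u v c) = 3 ^ (nV w * nV w) := by
      unfold lenE
      rw [hF0 _ _ _ _ _ hok0, if_neg (by omega), if_pos rfl, hNb']
    have hdel : ∀ j, delE N w (zE N w 2 k u v c) j = zE N w 1 (2 * (nV w * nV w)) u j c := by
      intro j
      unfold delE
      rw [hF0 _ _ _ _ _ hok0, if_neg (by omega), if_pos rfl, hF2 _ _ _ _ _ hok0,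
        hF4 _ _ _ _ _ hok0]
    have hokj : ∀ j < 3 ^ (nV w * nV w), OkFE w 1 (2 * (nV w * nV w)) u j c :=
      fun j hj => ⟨le_rfl, by omega, le_rfl, hu, hj, hc⟩
    have hval : ∀ j < 3 ^ (nV w * nV w), valE w (zE N w 1 (2 * (nV w * nV w)) u j c) =
        b01 (pthN N (nV w) c (2 * (nV w * nV w)) u j) := by
      intro j hj
      unfold valE
      rw [← hN, hF0 _ _ _ _ _ (hokj j hj), if_pos rfl, hF1 _ _ _ _ _ (hokj j hj),
        hF2 _ _ _ _ _ (hokj j hj), hF3 _ _ _ _ _ (hokj j hj), hF4 _ _ _ _ _ (hokj j hj)]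
    refine ⟨?_, ?_⟩
    · intro j hj
      rw [hlen] at hj
      rw [hdel]
      refine ⟨⟨1, 2 * (nV w * nV w), u, j, c, hokj j hj, by rw [hN]⟩, ?_⟩
      unfold rkE
      rw [← hN, hF0 _ _ _ _ _ (hokj j hj), if_pos rfl, hF1 _ _ _ _ _ (hokj j hj),
        hF0 _ _ _ _ _ hok0, if_neg (by omega), if_pos rfl]
      omega
    · have hv2 : valE w (zE N w 2 k u v c) = b01 (safN N (nV w) c u) := by
        unfold valE
        rw [← hN, hF0 _ _ _ _ _ hok0, if_neg (by omega), if_pos rfl, hF2 _ _ _ _ _ hok0,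
          hF4 _ _ _ _ _ hok0]
      have hini : iniE N w (zE N w 2 k u v c) = 1 := by
        unfold iniE
        rw [hF0 _ _ _ _ _ hok0, if_neg (by omega), if_pos rfl]
      have hl := loop_all
        (fun j => pthN N (nV w) c (2 * (nV w * nV w)) u j → gdN N (nV w) c j)
        (fun j a => stpE N w (zE N w 2 k u v c) j a (valE w (delE N w (zE N w 2 k u v c) j)))
        (3 ^ (nV w * nV w)) (fun j hj a => by
          rw [hdel, hval j hj]
          unfold stpE
          rw [hF0 _ _ _ _ _ hok0, if_neg (by omega), if_pos rfl, hF4 _ _ _ _ _ hok0]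
          apply b01_congr
          rw [b01_eq0, imp_iff_not_or]) (3 ^ (nV w * nV w)) le_rfl
      rw [hv2, hini, hlen, hl, b01_mod]
      apply b01_congr
      unfold safN
      rw [hpw3]
  · subst hT3
    have hlen : lenE N w (zE N w 3 k u v c) = 3 ^ (nV w * nV w) + 1 := by
      unfold lenE
      rw [hF0 _ _ _ _ _ hok0, if_neg (by omega), if_neg (by omega), if_pos rfl, hNb']
    have hdel0 : delE N w (zE N w 3 k u v c) 0 = zE N w 2 0 u 0 c := by
      unfold delE
      rw [hF0 _ _ _ _ _ hok0, if_neg (by omega), if_neg (by omega), if_pos rfl, if_pos rfl,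
        hF2 _ _ _ _ _ hok0, hF4 _ _ _ _ _ hok0]
    have hdelS : ∀ j, delE N w (zE N w 3 k u v c) (j + 1) = zE N w 2 0 j 0 c := by
      intro j
      unfold delE
      rw [hF0 _ _ _ _ _ hok0, if_neg (by omega), if_neg (by omega), if_pos rfl,
        if_neg (by omega), hF4 _ _ _ _ _ hok0, Nat.add_sub_cancel]
    have hok0' : OkFE w 2 0 u 0 c := ⟨by omega, by omega, by omega, hu, h3p, hc⟩
    have hokj : ∀ j < 3 ^ (nV w * nV w), OkFE w 2 0 j 0 c :=
      fun j hj => ⟨by omega, by omega, by omega, hj, h3p, hc⟩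
    have hval : ∀ j < 3 ^ (nV w * nV w), valE w (zE N w 2 0 j 0 c) =
        b01 (safN N (nV w) c j) := by
      intro j hj
      unfold valE
      rw [← hN, hF0 _ _ _ _ _ (hokj j hj), if_neg (by omega), if_pos rfl,
        hF2 _ _ _ _ _ (hokj j hj), hF4 _ _ _ _ _ (hokj j hj)]
    have hrkj : ∀ j < 3 ^ (nV w * nV w), rkE w (zE N w 2 0 j 0 c) <
        rkE w (zE N w 3 k u v c) := by
      intro j hj
      unfold rkE
      rw [← hN, hF0 _ _ _ _ _ (hokj j hj), if_neg (by omega), if_pos rfl,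
        hF0 _ _ _ _ _ hok0, if_neg (by omega), if_neg (by omega), if_pos rfl]
      omega
    refine ⟨?_, ?_⟩
    · intro j hj
      rw [hlen] at hj
      rcases j with _ | j
      · rw [hdel0]
        exact ⟨⟨2, 0, u, 0, c, hok0', by rw [hN]⟩, hrkj u hu⟩
      · rw [hdelS]
        exact ⟨⟨2, 0, j, 0, c, hokj j (by omega), by rw [hN]⟩, hrkj j (by omega)⟩
    · have hv3 : valE w (zE N w 3 k u v c) = b01 (losN N (nV w) c u) := by
        unfold valE
        rw [← hN, hF0 _ _ _ _ _ hok0, if_neg (by omega), if_neg (by omega), if_pos rfl,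
          hF2 _ _ _ _ _ hok0, hF4 _ _ _ _ _ hok0]
      have hl := loop_ex
        (fun j => if j = 0 then safN N (nV w) c u
          else (mvN N (nV w) c u (j - 1) ∧ safN N (nV w) c (j - 1)))
        (fun j a => stpE N w (zE N w 3 k u v c) j a (valE w (delE N w (zE N w 3 k u v c) j)))
        (3 ^ (nV w * nV w)) (fun a => by
          rw [hdel0, hval u hu]
          unfold stpE
          rw [hF0 _ _ _ _ _ hok0, if_neg (by omega), if_neg (by omega), if_pos rfl, if_pos rfl]
          apply b01_congr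
          rw [b01_ne, if_pos rfl]) (fun j hj a => by
          rw [hdelS, hval j hj]
          unfold stpE
          rw [hF0 _ _ _ _ _ hok0, if_neg (by omega), if_neg (by omega), if_pos rfl,
            if_neg (by omega), hF2 _ _ _ _ _ hok0, hF4 _ _ _ _ _ hok0, Nat.add_sub_cancel]
          apply b01_congr
          rw [b01_ne, if_neg (by omega)])
        (iniE N w (zE N w 3 k u v c)) (3 ^ (nV w * nV w)) le_rfl
      rw [hv3, hlen, hl, b01_mod]
      apply b01_congr
      unfold losN
      rw [hpw3, if_pos rfl]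
      simp only [Nat.add_sub_cancel, Nat.add_eq_zero_iff, one_ne_zero, and_false, if_false]

end Pool.Agent.Helper6.GU
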